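import Pool.Agent.U605.MMD

/-!
# Interval maps that are Hölder for every exponent have metric mean dimension zero
-/

set_option autoImplicit false

open scoped NNReal
open Pool.Agent.U605.MMD

namespace Pool.Agent.Results.MP_d02d3c_an.AlmostLipschitz

/-- If `φ : [0, 1] → [0, 1]` is `α`-Hölder continuous for every `α ∈ (0, 1)` then its upper (and
hence its lower) metric mean dimension is zero. -/
theorem result (φ : Set.Icc (0 : ℝ) 1 → Set.Icc (0 : ℝ) 1)
    (hφ : ∀ α : ℝ≥0, 0 < α → α < 1 → ∃ C : ℝ≥0, HolderWith C α φ) :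
    upperMdim φ = 0 ∧ lowerMdim φ = 0 := by
  have h0 : upperMdim φ ≤ 0 := by
    refine EReal.le_of_forall_lt_iff_le.1 ?_
    intro z hz
    have hz' : (0 : ℝ) < z := by exact_mod_cast hz
    -- choose the exponent `max (1 - z) (1/2)`
    set a : ℝ := max (1 - z) (1 / 2) with ha
    have ha0 : 0 < a := lt_of_lt_of_le (by norm_num) (le_max_right _ _)
    have ha1 : a < 1 := max_lt (by linarith) (by norm_num)
    obtain ⟨C, hC⟩ := hφ ⟨a, ha0.le⟩ (by exact_mod_cast ha0) (by exact_mod_cast ha1)
    have h := upperMdim_le (α := ⟨a, ha0.le⟩) ha1.le hC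
    refine h.trans ?_
    rw [EReal.coe_le_coe_iff]
    have : 1 - z ≤ a := le_max_left _ _
    show 1 - a ≤ z
    linarith
  have h1 := lowerMdim_nonneg φ
  have h2 := lower_le_upper φ
  exact ⟨le_antisymm h0 (h1.trans h2), le_antisymm (h2.trans h0) h1⟩

end Pool.Agent.Results.MP_d02d3c_an.AlmostLipschitz
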